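import Mathlib
import Pool.Agent.Y902.GN.Cov

/-!
# Keys of solutions of `∑ u i * s i * y i ^ d = 0`

The patterns and the ratios of the terms in the minimal vanishing sums take few values.
-/

set_option autoImplicit false

namespace Pool.Agent.T6.H20.MN

open Pool.Agent.Y902.GN

/-- the coordinate forms -/
def hid (m : ℕ) : Fin m → Fin m → ℤ := fun i j => if i = j then 1 else 0

theorem lin_hid {m : ℕ} (i : Fin m) (y : Fin m → ℤ) : lin (hid m i) y = y i := by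
  unfold lin hid
  rw [Finset.sum_eq_single i]
  · simp
  · intro j _ hj
    rw [if_neg (Ne.symm hj), zero_mul]
  · intro h
    exact absurd (Finset.mem_univ i) h

/-- the key of a solution: a partition of the nonzero terms in minimal vanishing sums, and the
ratios in the parts -/
abbrev Key (m : ℕ) := Finset (Finset (Fin m)) × (Fin m → Fin m → ℚ)

/-- `κ` is a key of the solution `y` -/
structure IsKey {m : ℕ} (u : Fin m → ℤ) (d : ℕ) (s y : Fin m → ℤ) (κ : Key m) : Prop where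
  blk : ∀ B ∈ κ.1, B.Nonempty ∧ ∑ i ∈ B, u i * s i * y i ^ d = 0
  un : ∀ i, i ∈ κ.1.biUnion id ↔ u i * s i * y i ^ d ≠ 0
  dis : Set.PairwiseDisjoint (κ.1 : Set (Finset (Fin m))) id
  rat : ∀ B ∈ κ.1, ∀ i ∈ B, ∀ i' ∈ B, κ.2 i i' = (y i : ℚ) / (y i' : ℚ)

/-- **There are few keys.** A choice of keys of all solutions. -/
theorem keys (m E : ℕ) (ε : ℝ) (hε : 0 < ε) : ∃ (R : ℕ) (δ : ℝ), 0 < δ ∧
    ∀ (Y d : ℕ) (u : Fin m → ℤ), 1 ≤ Y → R ≤ d → (d : ℝ) ≤ (Y : ℝ) ^ δ →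
      (∀ i, ((|u i| : ℤ) : ℝ) ≤ Real.exp ((Y : ℝ) ^ δ)) →
      ∃ K : Finset (Key m), (K.card : ℝ) ≤ (Y : ℝ) ^ ε ∧
        ∀ s y : Fin m → ℤ, (∀ i, |y i| ≤ (Y : ℤ) ^ E) →
          (∀ i, s i ≠ 0 ∧ |s i| ≤ (Y : ℤ) ^ E) → ∑ i, u i * s i * y i ^ d = 0 →
          ∃ κ ∈ K, IsKey u d s y κ := by
  classical
  obtain ⟨R, δ, hδ, H⟩ := covk m m 1 (ε / ((E : ℝ) + 1)) (by positivity)
  refine ⟨R, δ, hδ, fun Y d u hY hd hdY hu => ?_⟩
  have hY1 : (1 : ℝ) ≤ (Y : ℝ) := by exact_mod_cast hY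
  have hpow : (Y : ℝ) ^ δ ≤ ((Y ^ (E + 1) : ℕ) : ℝ) ^ δ := by
    apply Real.rpow_le_rpow (by positivity) _ hδ.le
    exact_mod_cast Nat.le_self_pow (by omega) _
  have hY2 : 1 ≤ Y ^ (E + 1) := Nat.one_le_pow _ _ hY
  have hEE : (Y : ℤ) ^ E ≤ ((Y ^ (E + 1) : ℕ) : ℤ) := by
    push_cast
    exact pow_le_pow_right₀ (by exact_mod_cast hY) (by omega)
  obtain ⟨h1, h2⟩ := fin_of_bound {κ : Key m | ∃ (x : Fin m → ℤ) (s : Fin m → ℤ),
      CovSol m m 1 d (Y ^ (E + 1)) u (hid m) κ x s}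
    ((((Y ^ (E + 1) : ℕ) : ℝ)) ^ (ε / ((E : ℝ) + 1)))
    fun T hT => H (Y ^ (E + 1)) hY2 d hd (hdY.trans hpow) u
      (fun i => (hu i).trans (Real.exp_le_exp.2 hpow)) (hid m) (fun i j => by
        unfold hid
        rw [pow_one]
        split
        · rw [abs_one]
          exact_mod_cast hY2
        · rw [abs_zero]
          positivity) T hT
  refine ⟨h1.toFinset, ?_, ?_⟩
  · rw [Set.ncard_eq_toFinset_card _ h1] at h2
    refine h2.trans (le_of_eq ?_)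
    push_cast
    rw [← Real.rpow_natCast, ← Real.rpow_mul (by positivity)]
    congr 1
    push_cast
    field_simp
  · intro s y hy hs h0
    have h0' : spF u (hid m) d s y = 0 := by
      unfold spF
      rw [← h0]
      refine Finset.sum_congr rfl fun i _ => ?_
      rw [lin_hid]
      ring
    obtain ⟨P, hP⟩ := Pat.ex h0'
    have hterm : ∀ i, u i * (s i * lin (hid m i) y ^ d) = u i * s i * y i ^ d := by
      intro i
      rw [lin_hid]
      ring
    refine ⟨(P, ratios P (hid m) y), h1.mem_toFinset.2 ⟨y, s, ⟨fun j => (hy j).trans hEE,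
      fun i => ⟨(hs i).1, ?_⟩, hP, rfl⟩⟩, ⟨?_, ?_, hP.dis, ?_⟩⟩
    · rw [pow_one]
      exact (hs i).2.trans hEE
    · intro B hB
      obtain ⟨a1, a2, -⟩ := hP.blk B hB
      refine ⟨a1, ?_⟩
      rw [← a2]
      exact Finset.sum_congr rfl fun i _ => (hterm i).symm
    · intro i
      rw [← hterm i]
      exact hP.un i
    · intro B hB i hi i' hi'
      show ratios P (hid m) y i i' = _
      unfold ratios
      rw [if_pos ⟨B, hB, hi, hi'⟩, lin_hid, lin_hid]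

/-- sums over the blocks: the terms may be multiplied by numbers that are constant on the blocks -/
theorem IsKey.sum {m : ℕ} {u : Fin m → ℤ} {d : ℕ} {s y : Fin m → ℤ} {κ : Key m}
    (h : IsKey u d s y κ) {A : Type*} [CommRing A] (γ : Fin m → A)
    (hγ : ∀ B ∈ κ.1, ∀ i ∈ B, ∀ i' ∈ B, γ i = γ i') :
    ∑ i, ((u i * s i * y i ^ d : ℤ) : A) * γ i = 0 := by
  classical
  rw [← Finset.sum_subset (Finset.subset_univ (κ.1.biUnion id)) (fun i _ hi => ?_)]
  · rw [Finset.sum_biUnion h.dis]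
    refine Finset.sum_eq_zero fun B hB => ?_
    obtain ⟨⟨i0, hi0⟩, hB2⟩ := h.blk B hB
    show ∑ i ∈ B, ((u i * s i * y i ^ d : ℤ) : A) * γ i = 0
    have e1 : ∀ i ∈ B, ((u i * s i * y i ^ d : ℤ) : A) * γ i =
        ((u i * s i * y i ^ d : ℤ) : A) * γ i0 := fun i hi => by rw [hγ B hB i hi i0 hi0]
    rw [Finset.sum_congr rfl e1, ← Finset.sum_mul, ← Int.cast_sum, hB2, Int.cast_zero, zero_mul]
  · have : u i * s i * y i ^ d = 0 := by
      by_contra hcon
      exact hi ((h.un i).2 hcon)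
    rw [this, Int.cast_zero, zero_mul]

theorem IsKey.ne {m : ℕ} {u : Fin m → ℤ} {d : ℕ} (hd : d ≠ 0) {s y : Fin m → ℤ} {κ : Key m}
    (h : IsKey u d s y κ) {B : Finset (Fin m)} (hB : B ∈ κ.1) {i : Fin m} (hi : i ∈ B) :
    y i ≠ 0 := by
  classical
  intro h0
  apply (h.un i).1 (Finset.mem_biUnion.2 ⟨B, hB, hi⟩)
  rw [h0, zero_pow hd, mul_zero]

end Pool.Agent.T6.H20.MN
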