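import Mathlib
import Pool.Agent.T6.H20.MN.Keys

/-!
# Solutions of equations between monomials with the same key

The monomials `mon M x i = ∏ x j ^ M i j`, all of degree `l`.
-/

set_option autoImplicit false

namespace Pool.Agent.T6.H20.MN

open Pool.Agent.Y902.GN

/-- the monomials -/
def mon {A : Type*} [CommRing A] {m n : ℕ} (M : Fin m → Fin n → ℕ) (x : Fin n → A) : Fin m → A :=
  fun i => ∏ j, x j ^ M i j

/-- integral weights which are equal on the exponents of a block -/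
def Kc {m n : ℕ} (M : Fin m → Fin n → ℕ) (P : Finset (Finset (Fin m))) (w : Fin n → ℤ) : Prop :=
  ∀ B ∈ P, ∀ i ∈ B, ∀ i' ∈ B, ∑ j, (M i j : ℤ) * w j = ∑ j, (M i' j : ℤ) * w j

/-- constant on the support -/
def Con {n : ℕ} (S : Finset (Fin n)) (w : Fin n → ℤ) : Prop := ∀ j ∈ S, ∀ j' ∈ S, w j = w j'

/-- nonconstant weights of bounded size -/
theorem exists_width (n m l : ℕ) : ∃ C : ℕ, ∀ (M : Fin m → Fin n → ℕ)
    (P : Finset (Finset (Fin m))) (S : Finset (Fin n)), (∀ i, ∑ j, M i j = l) →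
    (∃ w, Kc M P w ∧ ¬ Con S w) →
    ∃ w : Fin n → ℕ, Kc M P (fun j => (w j : ℤ)) ∧ ¬ Con S (fun j => (w j : ℤ)) ∧
      ∀ j, w j ≤ C := by
  classical
  have hch : ∀ c : (Fin m → Fin n → Fin (l + 1)) × Finset (Finset (Fin m)) × Finset (Fin n),
      ∃ w : Fin n → ℕ, (∃ w' : Fin n → ℕ, Kc (fun i j => (c.1 i j : ℕ)) c.2.1
        (fun j => (w' j : ℤ)) ∧ ¬ Con c.2.2 (fun j => (w' j : ℤ))) →
        Kc (fun i j => (c.1 i j : ℕ)) c.2.1 (fun j => (w j : ℤ)) ∧
          ¬ Con c.2.2 (fun j => (w j : ℤ)) := by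
    intro c
    by_cases h : ∃ w' : Fin n → ℕ, Kc (fun i j => (c.1 i j : ℕ)) c.2.1
        (fun j => (w' j : ℤ)) ∧ ¬ Con c.2.2 (fun j => (w' j : ℤ))
    · obtain ⟨w, hw⟩ := h
      exact ⟨w, fun _ => hw⟩
    · exact ⟨0, fun h' => absurd h' h⟩
  choose f hf using hch
  refine ⟨∑ c, ∑ j, f c j, fun M P S hM hw => ?_⟩
  obtain ⟨w, hw1, hw2⟩ := hw
  have hMl : ∀ i j, M i j < l + 1 := fun i j => by
    have := Finset.single_le_sum (f := fun j => M i j) (fun j _ => Nat.zero_le _)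
      (Finset.mem_univ j)
    have h2 := hM i
    omega
  obtain ⟨c, hc⟩ : ∃ c : (Fin m → Fin n → Fin (l + 1)) × Finset (Finset (Fin m)) ×
      Finset (Fin n), c = (fun i j => ⟨M i j, hMl i j⟩, P, S) := ⟨_, rfl⟩
  have hc1 : (fun i j => (c.1 i j : ℕ)) = M := by rw [hc]
  have hc2 : c.2.1 = P := by rw [hc]
  have hc3 : c.2.2 = S := by rw [hc]
  have hex : ∃ w' : Fin n → ℕ, Kc (fun i j => (c.1 i j : ℕ)) c.2.1
        (fun j => (w' j : ℤ)) ∧ ¬ Con c.2.2 (fun j => (w' j : ℤ)) := by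
    rw [hc1, hc2, hc3]
    obtain ⟨b, hb⟩ : ∃ b : ℤ, ∀ j, 0 ≤ w j + b := by
      refine ⟨∑ j, |w j|, fun j => ?_⟩
      have h1 := Finset.single_le_sum (f := fun j => |w j|) (fun j _ => abs_nonneg _)
        (Finset.mem_univ j)
      have h2 := neg_abs_le (w j)
      linarith
    refine ⟨fun j => (w j + b).toNat, ?_, ?_⟩
    · intro B hB i hi i' hi'
      have h1 := hw1 B hB i hi i' hi'
      have h2 : ∀ i, ∑ j, (M i j : ℤ) * (((w j + b).toNat : ℕ) : ℤ) =
          ∑ j, (M i j : ℤ) * w j + l * b := by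
        intro i
        rw [← hM i]
        push_cast
        rw [Finset.sum_mul, ← Finset.sum_add_distrib]
        refine Finset.sum_congr rfl fun j _ => ?_
        rw [Int.toNat_of_nonneg (hb j)]
        ring
      rw [h2, h2, h1]
    · intro hcon
      apply hw2
      intro j hj j' hj'
      have h1 := hcon j hj j' hj'
      simp only at h1
      rw [Int.toNat_of_nonneg (hb j), Int.toNat_of_nonneg (hb j')] at h1
      linarith
  have h3 := hf c hex
  rw [hc1, hc2, hc3] at h3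
  refine ⟨f c, h3.1, h3.2, fun j => ?_⟩
  calc f c j ≤ ∑ j, f c j := Finset.single_le_sum (f := fun j => f c j)
        (fun j _ => Nat.zero_le _) (Finset.mem_univ j)
    _ ≤ _ := Finset.single_le_sum (f := fun c => ∑ j, f c j)
        (fun c _ => Nat.zero_le _) (Finset.mem_univ c)

/-- the orbits of the torus -/
theorem orbit_in {m n d : ℕ} {u s : Fin m → ℤ} {M : Fin m → Fin n → ℕ} {x : Fin n → ℤ}
    {κ : Key m} (h : IsKey u d s (mon M x) κ) {A : Type*} [CommRing A] (g : Fin n → A)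
    (hg : ∀ B ∈ κ.1, ∀ i ∈ B, ∀ i' ∈ B, ∏ j, g j ^ M i j = ∏ j, g j ^ M i' j) :
    ∑ i, ((u i * s i : ℤ) : A) * (∏ j, (g j * (x j : A)) ^ M i j) ^ d = 0 := by
  rw [← h.sum (fun i => (∏ j, g j ^ M i j) ^ d) (fun B hB i hi i' hi' => by
    rw [hg B hB i hi i' hi'])]
  refine Finset.sum_congr rfl fun i _ => ?_
  simp only [mul_pow, Finset.prod_mul_distrib]
  unfold mon
  push_cast
  ring

theorem log_ratio {m n d : ℕ} (hd : d ≠ 0) {u s s' : Fin m → ℤ} {M : Fin m → Fin n → ℕ}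
    {x x' : Fin n → ℤ} {κ : Key m} (h : IsKey u d s (mon M x) κ)
    (h' : IsKey u d s' (mon M x') κ) (hsg : ∀ j, (x j).sign = (x' j).sign) :
    ∀ B ∈ κ.1, ∀ i ∈ B, ∀ i' ∈ B,
      ∑ j, (M i j : ℝ) * Real.log ((x' j : ℝ) / (x j : ℝ)) =
        ∑ j, (M i' j : ℝ) * Real.log ((x' j : ℝ) / (x j : ℝ)) := by
  classical
  have hz : ∀ j, x j = 0 ↔ x' j = 0 := fun j => by
    rw [← Int.sign_eq_zero_iff_zero, hsg j, Int.sign_eq_zero_iff_zero]
  intro B hB
  have key : ∀ i ∈ B, ∑ j, (M i j : ℝ) * Real.log ((x' j : ℝ) / (x j : ℝ)) =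
      Real.log (((mon M x' i : ℤ) : ℝ) / ((mon M x i : ℤ) : ℝ)) := by
    intro i hi
    have hne := h.ne hd hB hi
    have hx : ∀ j, M i j ≠ 0 → x j ≠ 0 := by
      intro j hj hxj
      apply hne
      unfold mon
      exact Finset.prod_eq_zero (Finset.mem_univ j) (by rw [hxj, zero_pow hj])
    unfold mon
    push_cast
    rw [← Finset.prod_div_distrib, Real.log_prod (fun j _ => ?_)]
    · refine Finset.sum_congr rfl fun j _ => ?_
      rw [← div_pow, Real.log_pow]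
    · by_cases hj : M i j = 0
      · rw [hj, pow_zero, pow_zero, div_one]
        exact one_ne_zero
      · have h1 : (x j : ℝ) ≠ 0 := by exact_mod_cast hx j hj
        have h2 : (x' j : ℝ) ≠ 0 := by
          have := mt (hz j).2 (hx j hj)
          exact_mod_cast this
        positivity
  intro i hi i' hi'
  rw [key i hi, key i' hi']
  congr 1
  have e1 := h.rat B hB i hi i' hi'
  have e2 := h'.rat B hB i hi i' hi'
  rw [e1] at e2
  have n1 : ((mon M x i : ℤ) : ℚ) ≠ 0 := by exact_mod_cast h.ne hd hB hi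
  have n2 : ((mon M x i' : ℤ) : ℚ) ≠ 0 := by exact_mod_cast h.ne hd hB hi'
  have n3 : ((mon M x' i : ℤ) : ℚ) ≠ 0 := by exact_mod_cast h'.ne hd hB hi
  have n4 : ((mon M x' i' : ℤ) : ℚ) ≠ 0 := by exact_mod_cast h'.ne hd hB hi'
  have e3 : ((mon M x' i : ℤ) : ℚ) / ((mon M x i : ℤ) : ℚ) =
      ((mon M x' i' : ℤ) : ℚ) / ((mon M x i' : ℤ) : ℚ) := by
    rw [div_eq_div_iff n2 n4] at e2
    rw [div_eq_div_iff n1 n2]
    linear_combination -e2
  have e4 := congrArg (Rat.cast : ℚ → ℝ) e3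
  push_cast at e4
  exact e4

/-- a rational linear functional of the real solutions is an integral solution, up to a factor -/
theorem dual_sol {m n : ℕ} {M : Fin m → Fin n → ℕ} {P : Finset (Finset (Fin m))} {v : Fin n → ℝ}
    (hv : ∀ B ∈ P, ∀ i ∈ B, ∀ i' ∈ B, ∑ j, (M i j : ℝ) * v j = ∑ j, (M i' j : ℝ) * v j)
    (φ : Module.Dual ℚ ℝ) : ∃ (N : ℤ) (w : Fin n → ℤ), N ≠ 0 ∧ Kc M P w ∧
      ∀ j, (w j : ℚ) = N * φ (v j) := by
  classical
  obtain ⟨⟨b, hb⟩, hb'⟩ := IsLocalization.exist_integer_multiples (nonZeroDivisors ℤ) Finset.univ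
    (fun j => φ (v j))
  have hb0 : b ≠ 0 := nonZeroDivisors.ne_zero hb
  have hw : ∀ j, ∃ w : ℤ, (w : ℚ) = b * φ (v j) := by
    intro j
    obtain ⟨w, hw⟩ := hb' j (Finset.mem_univ j)
    refine ⟨w, ?_⟩
    have h1 : (w : ℚ) = b • φ (v j) := hw
    rw [h1, zsmul_eq_mul]
  choose w hw using hw
  refine ⟨b, w, hb0, fun B hB i hi i' hi' => ?_, hw⟩
  have hφ : ∀ i, ∑ j, (M i j : ℚ) * φ (v j) = φ (∑ j, (M i j : ℝ) * v j) := by
    intro i
    rw [map_sum]
    refine Finset.sum_congr rfl fun j _ => ?_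
    have : (M i j : ℝ) * v j = ((M i j : ℚ)) • v j := by
      rw [Rat.smul_def]
      push_cast
      rfl
    rw [this, map_smul, smul_eq_mul]
  have h1 : ∀ i, ((∑ j, (M i j : ℤ) * w j : ℤ) : ℚ) = b * φ (∑ j, (M i j : ℝ) * v j) := by
    intro i
    push_cast
    rw [← hφ, Finset.mul_sum]
    refine Finset.sum_congr rfl fun j _ => ?_
    rw [hw j]
    ring
  have h2 : ((∑ j, (M i j : ℤ) * w j : ℤ) : ℚ) = ((∑ j, (M i' j : ℤ) * w j : ℤ) : ℚ) := by
    rw [h1, h1, hv B hB i hi i' hi']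
  exact_mod_cast h2

/-- if all integral solutions are constant on `S` then all real solutions are so -/
theorem real_const {m n : ℕ} {M : Fin m → Fin n → ℕ} {P : Finset (Finset (Fin m))} {v : Fin n → ℝ}
    (hv : ∀ B ∈ P, ∀ i ∈ B, ∀ i' ∈ B, ∑ j, (M i j : ℝ) * v j = ∑ j, (M i' j : ℝ) * v j)
    {S : Finset (Fin n)} (hS : ∀ w, Kc M P w → Con S w) {j j' : Fin n} (hj : j ∈ S)
    (hj' : j' ∈ S) : v j = v j' := by
  rw [← sub_eq_zero, ← Module.forall_dual_apply_eq_zero_iff ℚ]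
  intro φ
  obtain ⟨N, w, hN, hw, hw'⟩ := dual_sol hv φ
  have h1 := hS w hw j hj j' hj'
  have h2 := hw' j
  rw [h1, hw' j'] at h2
  have hN' : (N : ℚ) ≠ 0 := by exact_mod_cast hN
  rw [map_sub, sub_eq_zero]
  exact (mul_left_cancel₀ hN' h2).symm

/-- if the integral solutions have rank one modulo constants, so have the real solutions -/
theorem real_line {m n : ℕ} {M : Fin m → Fin n → ℕ} {P : Finset (Finset (Fin m))} {v : Fin n → ℝ}
    (hv : ∀ B ∈ P, ∀ i ∈ B, ∀ i' ∈ B, ∑ j, (M i j : ℝ) * v j = ∑ j, (M i' j : ℝ) * v j)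
    {S : Finset (Fin n)} {w : Fin n → ℤ} (hw0 : ¬ Con S w)
    (hS : ∀ w', Kc M P w' → ∃ p q : ℤ, (p ≠ 0 ∨ q ≠ 0) ∧ Con S (fun j => p * w j + q * w' j)) :
    ∃ α β : ℝ, ∀ j ∈ S, v j = α + β * w j := by
  unfold Con at hw0
  push Not at hw0
  obtain ⟨j0, hj0, j1, hj1, h01⟩ := hw0
  have h01' : ((w j1 : ℝ) - w j0) ≠ 0 := by
    rw [sub_ne_zero]
    exact_mod_cast h01.symm
  have key : ∀ j ∈ S, ((w j1 - w j0 : ℤ) : ℝ) * (v j - v j0) -
      ((w j - w j0 : ℤ) : ℝ) * (v j1 - v j0) = 0 := by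
    intro j hj
    rw [← Module.forall_dual_apply_eq_zero_iff ℚ]
    intro φ
    obtain ⟨N, w', hN, hw, hw'⟩ := dual_sol hv φ
    obtain ⟨p, q, hpq, hc⟩ := hS w' hw
    have hq : q ≠ 0 := by
      rintro rfl
      have hp : p ≠ 0 := by
        rcases hpq with h | h
        · exact h
        · exact absurd rfl h
      have := hc j0 hj0 j1 hj1
      simp only [zero_mul, add_zero] at this
      exact h01 (mul_left_cancel₀ hp this)
    have h1 := hc j hj j0 hj0
    have h2 := hc j1 hj1 j0 hj0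
    simp only at h1 h2
    have h3 : (w j1 - w j0) * (w' j - w' j0) = (w j - w j0) * (w' j1 - w' j0) := by
      apply mul_left_cancel₀ hq
      linear_combination (w j1 - w j0) * h1 - (w j - w j0) * h2
    have h4 : ((w j1 - w j0 : ℤ) : ℚ) * ((w' j : ℚ) - w' j0) =
        ((w j - w j0 : ℤ) : ℚ) * ((w' j1 : ℚ) - w' j0) := by exact_mod_cast h3
    rw [hw', hw', hw'] at h4
    have hN' : (N : ℚ) ≠ 0 := by exact_mod_cast hN
    have h5 : ((w j1 - w j0 : ℤ) : ℚ) * (φ (v j) - φ (v j0)) =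
        ((w j - w j0 : ℤ) : ℚ) * (φ (v j1) - φ (v j0)) := by
      apply mul_left_cancel₀ hN'
      linear_combination h4
    have h6 : ∀ (a : ℤ) (y : ℝ), φ ((a : ℝ) * y) = (a : ℚ) * φ y := by
      intro a y
      have : (a : ℝ) * y = (a : ℚ) • y := by
        rw [Rat.smul_def]
        push_cast
        rfl
      rw [this, map_smul, smul_eq_mul]
    rw [map_sub, h6, h6, map_sub, map_sub, h5, sub_self]
  refine ⟨v j0 - (v j1 - v j0) / ((w j1 : ℝ) - w j0) * w j0,
    (v j1 - v j0) / ((w j1 : ℝ) - w j0), fun j hj => ?_⟩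
  have h1 := key j hj
  push_cast at h1
  field_simp
  linear_combination h1

/-- primitive vectors with positive ratio are equal -/
theorem prim_eq {n : ℕ} {x x' : Fin n → ℤ} (hx : Finset.univ.gcd x = 1)
    (hx' : Finset.univ.gcd x' = 1) {c : ℝ} (hc : 0 < c) (h : ∀ j, (x' j : ℝ) = c * x j) :
    x' = x := by
  -- `c` is rational
  have hne : ∃ j, x j ≠ 0 := by
    by_contra hcon
    push Not at hcon
    have : x = 0 := funext hcon
    rw [this] at hx
    have h0 : (Finset.univ : Finset (Fin n)).gcd (0 : Fin n → ℤ) = 0 := by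
      rw [Finset.gcd_eq_zero_iff]
      exact fun j _ => rfl
    rw [h0] at hx
    exact zero_ne_one hx
  obtain ⟨j0, hj0⟩ := hne
  have hj0' : (x j0 : ℝ) ≠ 0 := by exact_mod_cast hj0
  have hcx : c = x' j0 / x j0 := by
    rw [h j0]
    field_simp
  have hpos : 0 < x' j0 * x j0 := by
    have h1 : 0 < (x' j0 : ℝ) / x j0 := hcx ▸ hc
    have h2 : 0 < (x' j0 : ℝ) * x j0 := by
      have : (x' j0 : ℝ) * x j0 = (x' j0 : ℝ) / x j0 * (x j0 * x j0) := by field_simp
      rw [this]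
      exact mul_pos h1 (mul_self_pos.2 hj0')
    exact_mod_cast h2
  have hrel : ∀ j, x j0 * x' j = x' j0 * x j := by
    intro j
    have h1 := h j
    rw [hcx] at h1
    have h2 : (x j0 : ℝ) * x' j = x' j0 * x j := by
      rw [h1]
      field_simp
    exact_mod_cast h2
  have hg : ∀ (a : ℤ) (y : Fin n → ℤ), Finset.univ.gcd y = 1 →
      Finset.univ.gcd (fun j => a * y j) = |a| := by
    intro a y hy
    rw [Finset.gcd_mul_left, hy, mul_one, ← Int.abs_eq_normalize]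
  have h1 := hg (x j0) x' hx'
  have h2 := hg (x' j0) x hx
  have h3 : (fun j => x j0 * x' j) = fun j => x' j0 * x j := funext hrel
  rw [h3, h2] at h1
  have h4 : x' j0 = x j0 := by
    rcases abs_eq_abs.1 h1 with h | h
    · exact h
    · exfalso
      rw [h] at hpos
      nlinarith [mul_self_pos.2 hj0]
  funext j
  have h5 := hrel j
  rw [h4] at h5
  exact mul_left_cancel₀ hj0 h5

end Pool.Agent.T6.H20.MN
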