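import Mathlib
import Pool.Agent.T6.H20.MN.Torus

/-!
# The number of the points in a class
-/

set_option autoImplicit false

namespace Pool.Agent.T6.H20.MN

open Pool.Agent.Y902.GN MvPolynomial

theorem aeval_scale {n k : ℕ} {A : Type*} [CommRing A] {g : MvPolynomial (Fin n) ℤ}
    (hg : g.IsHomogeneous k) (c : A) (y : Fin n → A) :
    aeval (fun j => c * y j) g = c ^ k * aeval y g := by
  rw [aeval_def, aeval_def, eval₂_eq', eval₂_eq', Finset.mul_sum]
  refine Finset.sum_congr rfl fun t ht => ?_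
  have h1 : ∑ j, t j = k := by
    have := hg (mem_support_iff.1 ht)
    rw [Finsupp.weight_apply, Finsupp.sum_fintype _ _ (by simp)] at this
    simpa using this
  simp only [mul_pow, Finset.prod_mul_distrib]
  rw [Finset.prod_pow_eq_pow_sum, h1]
  ring

theorem natDegree_aeval_le {n e C : ℕ} {g : MvPolynomial (Fin n) ℤ} (hg : g.totalDegree ≤ e)
    (q : Fin n → Polynomial ℤ) (hq : ∀ j, (q j).natDegree ≤ C) :
    (aeval q g).natDegree ≤ e * C := by
  rw [aeval_def, eval₂_eq']
  refine Polynomial.natDegree_sum_le_of_forall_le _ _ fun t ht => ?_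
  have h0 : ((algebraMap ℤ (Polynomial ℤ)) (coeff t g)).natDegree = 0 := by
    rw [Polynomial.algebraMap_eq, Polynomial.natDegree_C]
  refine (Polynomial.natDegree_mul_le).trans ?_
  rw [h0, zero_add]
  refine (Polynomial.natDegree_prod_le _ _).trans ?_
  have h1 : ∑ j, t j ≤ e := by
    have := le_totalDegree ht
    rw [Finsupp.sum_fintype _ _ (fun _ => rfl)] at this
    exact this.trans hg
  calc ∑ j, (q j ^ t j).natDegree ≤ ∑ j, t j * C := by
        refine Finset.sum_le_sum fun j _ => (Polynomial.natDegree_pow_le).trans ?_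
        exact Nat.mul_le_mul_left _ (hq j)
    _ = (∑ j, t j) * C := by rw [Finset.sum_mul]
    _ ≤ e * C := Nat.mul_le_mul_right _ h1

/-- all orbits, of rational points, in the hypersurface under tori `(t ^ (w j) t' ^ (w' j))` have
dimension at most one -/
def NoSurf {m n : ℕ} (a : Fin m → ℤ) (M : Fin m → Fin n → ℕ) (d : ℕ) : Prop :=
  ∀ (x w w' : Fin n → ℤ),
    (∀ b b' : ℂ, ∑ i, (a i : ℂ) *
      (∏ j, (Complex.exp (b * w j + b' * w' j) * (x j : ℂ)) ^ M i j) ^ d = 0) →
    ∃ p q : ℤ, (p ≠ 0 ∨ q ≠ 0) ∧ ∀ j j', x j ≠ 0 → x j' ≠ 0 →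
      p * w j + q * w' j = p * w j' + q * w' j'

/-- hyperbolicity of the part of the hypersurface in the zero set of `G` -/
def Hyp {m n : ℕ} (a : Fin m → ℤ) (M : Fin m → Fin n → ℕ) (d : ℕ)
    (G : Set (MvPolynomial (Fin n) ℤ)) : Prop :=
  ∀ f : ℂ → Fin n → ℂ, (∀ j, Differentiable ℂ fun z => f z j) → (∀ z, f z ≠ 0) →
    (∀ z, ∑ i, (a i : ℂ) * (∏ j, f z j ^ M i j) ^ d = 0) →
    (∀ z, ∀ g ∈ G, aeval (f z) g = 0) → ∀ z w, ∃ c : ℂ, f z = c • f w

theorem orbit_exp {m n d : ℕ} {u s : Fin m → ℤ} {M : Fin m → Fin n → ℕ} {x : Fin n → ℤ}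
    {κ : Key m} (h : IsKey u d s (mon M x) κ) {w w' : Fin n → ℤ} (hw : Kc M κ.1 w)
    (hw' : Kc M κ.1 w') (b b' : ℂ) : ∑ i, ((u i * s i : ℤ) : ℂ) *
      (∏ j, (Complex.exp (b * w j + b' * w' j) * (x j : ℂ)) ^ M i j) ^ d = 0 := by
  refine orbit_in h (fun j => Complex.exp (b * w j + b' * w' j)) fun B hB i hi i' hi' => ?_
  have key : ∀ i, ∏ j, Complex.exp (b * w j + b' * w' j) ^ M i j =
      Complex.exp (b * ((∑ j, (M i j : ℤ) * w j : ℤ) : ℂ) +
        b' * ((∑ j, (M i j : ℤ) * w' j : ℤ) : ℂ)) := by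
    intro i
    push_cast
    rw [Finset.mul_sum, Finset.mul_sum, ← Finset.sum_add_distrib, Complex.exp_sum]
    refine Finset.prod_congr rfl fun j _ => ?_
    rw [← Complex.exp_nat_mul]
    congr 1
    ring
  rw [key, key, hw B hB i hi i' hi', hw' B hB i hi i' hi']

/-- nonconstant weights give entire curves -/
theorem curve_in {m n d : ℕ} {u s : Fin m → ℤ} {M : Fin m → Fin n → ℕ} {x : Fin n → ℤ}
    (hx : x ≠ 0) {κ : Key m} (h : IsKey u d s (mon M x) κ) {w : Fin n → ℤ} (hw : Kc M κ.1 w)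
    {G : Set (MvPolynomial (Fin n) ℤ)}
    (hG : ∀ z : ℂ, ∀ g ∈ G, aeval (fun j => Complex.exp (z * w j) * (x j : ℂ)) g = 0)
    (hyp : Hyp (fun i => u i * s i) M d G) : ∀ j j', x j ≠ 0 → x j' ≠ 0 → w j = w j' := by
  have h0 : ∀ z : ℂ, (fun j => Complex.exp (z * w j) * (x j : ℂ)) ≠ 0 := by
    intro z hz
    apply hx
    funext j
    have h1 := congrFun hz j
    simp only [Pi.zero_apply, mul_eq_zero, Complex.exp_ne_zero, false_or] at h1
    exact_mod_cast h1
  obtain ⟨c, hc⟩ := hyp (fun z j => Complex.exp (z * w j) * (x j : ℂ)) (fun j => by fun_prop) h0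
    (fun z => by
      have := orbit_exp h hw hw z 0
      simpa using this) hG 1 0
  intro j j' hj hj'
  have e : ∀ j, x j ≠ 0 → Complex.exp (w j) = c := by
    intro j hj
    have h1 := congrFun hc j
    simp only [Pi.smul_apply, smul_eq_mul, one_mul, zero_mul, Complex.exp_zero] at h1
    have h2 : (x j : ℂ) ≠ 0 := by exact_mod_cast hj
    exact mul_right_cancel₀ h2 h1
  have h1 := (e j hj).trans (e j' hj').symm
  have h2 : Real.exp (w j) = Real.exp (w j') := by
    apply Complex.ofReal_injective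
    push_cast
    exact h1
  have h3 := Real.exp_injective h2
  exact_mod_cast h3

/-- a hyperbolic hypersurface contains no orbits of dimension one -/
theorem noSurf_of_hyp {m n d : ℕ} {a : Fin m → ℤ} {M : Fin m → Fin n → ℕ}
    (hyp : Hyp a M d ∅) : NoSurf a M d := by
  intro x w w' h
  refine ⟨1, 0, Or.inl one_ne_zero, fun j j' hj hj' => ?_⟩
  have hx : x ≠ 0 := fun hx0 => hj (by rw [hx0]; rfl)
  have h0 : ∀ z : ℂ, (fun j => Complex.exp (z * w j) * (x j : ℂ)) ≠ 0 := by
    intro z hz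
    apply hx
    funext j
    have h1 := congrFun hz j
    simp only [Pi.zero_apply, mul_eq_zero, Complex.exp_ne_zero, false_or] at h1
    exact_mod_cast h1
  obtain ⟨c, hc⟩ := hyp (fun z j => Complex.exp (z * w j) * (x j : ℂ)) (fun j => by fun_prop) h0
    (fun z => by
      have := h z 0
      simpa using this) (fun _ g hg => absurd hg (Set.notMem_empty g)) 1 0
  have e : ∀ j, x j ≠ 0 → Complex.exp (w j) = c := by
    intro j hj
    have h1 := congrFun hc j
    simp only [Pi.smul_apply, smul_eq_mul, one_mul, zero_mul, Complex.exp_zero] at h1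
    have h2 : (x j : ℂ) ≠ 0 := by exact_mod_cast hj
    exact mul_right_cancel₀ h2 h1
  have h1 := (e j hj).trans (e j' hj').symm
  have h2 : Real.exp (w j) = Real.exp (w j') := by
    apply Complex.ofReal_injective
    push_cast
    exact h1
  have h3 := Real.exp_injective h2
  simp only [one_mul, zero_mul, add_zero]
  exact_mod_cast h3

/-- **the number of the points with the same key and the same signs** -/
theorem class_card {m n e C d : ℕ} {u : Fin m → ℤ} {M : Fin m → Fin n → ℕ}
    (hd : d ≠ 0) {G : Set (MvPolynomial (Fin n) ℤ)}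
    (hG : ∀ g ∈ G, ∃ k ≤ e, g.IsHomogeneous k) (κ : Key m)
    (hC : ∀ S : Finset (Fin n), (∃ w, Kc M κ.1 w ∧ ¬ Con S w) →
      ∃ w : Fin n → ℕ, Kc M κ.1 (fun j => (w j : ℤ)) ∧ ¬ Con S (fun j => (w j : ℤ)) ∧
      ∀ j, w j ≤ C)
    (T : Finset (Fin n → ℤ))
    (hT : ∀ x ∈ T, Finset.univ.gcd x = 1 ∧ (∀ g ∈ G, aeval x g = 0) ∧
      ∃ s, IsKey u d s (mon M x) κ ∧
      NoSurf (fun i => u i * s i) M d ∧ Hyp (fun i => u i * s i) M d G)
    (hs : ∀ x ∈ T, ∀ x' ∈ T, ∀ j, (x j).sign = (x' j).sign) :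
    T.card ≤ e * C + 1 := by
  classical
  rcases T.eq_empty_or_nonempty with h0 | ⟨x0, hx0⟩
  · rw [h0, Finset.card_empty]
    exact Nat.zero_le _
  obtain ⟨hprim0, hz0, s0, hk0, hns0, hyp0⟩ := hT x0 hx0
  have hnz : ∀ x : Fin n → ℤ, Finset.univ.gcd x = 1 → x ≠ 0 := by
    rintro x hx rfl
    have h0 : (Finset.univ : Finset (Fin n)).gcd (0 : Fin n → ℤ) = 0 := by
      rw [Finset.gcd_eq_zero_iff]
      exact fun j _ => rfl
    rw [h0] at hx
    exact zero_ne_one hx
  obtain ⟨S, hS⟩ : ∃ S : Finset (Fin n), ∀ j, j ∈ S ↔ x0 j ≠ 0 :=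
    ⟨Finset.univ.filter fun j => x0 j ≠ 0, fun j => by simp⟩
  have hlog : ∀ x ∈ T, ∀ B ∈ κ.1, ∀ i ∈ B, ∀ i' ∈ B,
      ∑ j, (M i j : ℝ) * Real.log ((x j : ℝ) / (x0 j : ℝ)) =
        ∑ j, (M i' j : ℝ) * Real.log ((x j : ℝ) / (x0 j : ℝ)) := by
    intro x hx
    obtain ⟨-, -, s, hk, -⟩ := hT x hx
    exact log_ratio hd hk0 hk (hs x0 hx0 x hx)
  have hpos : ∀ x ∈ T, ∀ j ∈ S, 0 < (x j : ℝ) / (x0 j : ℝ) := by
    intro x hx j hj
    have h1 := hs x0 hx0 x hx j
    have h2 := (hS j).1 hj
    rcases lt_or_gt_of_ne h2 with h | h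
    · rw [Int.sign_eq_neg_one_of_neg h] at h1
      have h3 := Int.sign_eq_neg_one_iff_neg.1 h1.symm
      exact div_pos_of_neg_of_neg (by exact_mod_cast h3) (by exact_mod_cast h)
    · rw [Int.sign_eq_one_of_pos h] at h1
      have h3 := Int.sign_eq_one_iff_pos.1 h1.symm
      exact div_pos (by exact_mod_cast h3) (by exact_mod_cast h)
  have hzero : ∀ x ∈ T, ∀ j, j ∉ S → x0 j = 0 ∧ x j = 0 := by
    intro x hx j hj
    have h1 : x0 j = 0 := by
      by_contra h
      exact hj ((hS j).2 h)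
    refine ⟨h1, ?_⟩
    have h2 := hs x0 hx0 x hx j
    rw [h1, Int.sign_zero] at h2
    exact Int.sign_eq_zero_iff_zero.1 h2.symm
  by_cases hc : ∃ w, Kc M κ.1 w ∧ ¬ Con S w
  · obtain ⟨w, hw1, hw2, hw3⟩ := hC S hc
    have hline : ∀ x ∈ T, ∃ α β : ℝ, ∀ j, (x j : ℝ) = Real.exp α * (x0 j * Real.exp β ^ w j) := by
      intro x hx
      obtain ⟨α, β, hαβ⟩ := real_line (hlog x hx) hw2 (fun w' hw' => by
        obtain ⟨p, q, hpq, h1⟩ := hns0 x0 (fun j => (w j : ℤ)) w'
          (fun b b' => orbit_exp hk0 hw1 hw' b b')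
        exact ⟨p, q, hpq, fun j hj j' hj' => h1 j j' ((hS j).1 hj) ((hS j').1 hj')⟩)
      refine ⟨α, β, fun j => ?_⟩
      by_cases hj : j ∈ S
      · have h1 := hαβ j hj
        have h2 := hpos x hx j hj
        have h3 : (x0 j : ℝ) ≠ 0 := by exact_mod_cast (hS j).1 hj
        have h4 : (x j : ℝ) / x0 j = Real.exp (α + β * w j) := by
          rw [← Real.exp_log h2, h1]
          push_cast
          rfl
        rw [div_eq_iff h3] at h4
        rw [h4, Real.exp_add, mul_comm β, Real.exp_nat_mul]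
        ring
      · obtain ⟨h1, h2⟩ := hzero x hx j hj
        rw [h1, h2]
        simp
    choose! α β hαβ using hline
    -- the polynomials
    obtain ⟨q, hq⟩ : ∃ q : Fin n → Polynomial ℤ, ∀ j, q j = Polynomial.C (x0 j) *
        Polynomial.X ^ w j := ⟨_, fun _ => rfl⟩
    have hev : ∀ (A : Type) [CommRing A] (t : A) (g : MvPolynomial (Fin n) ℤ),
        Polynomial.aeval t (aeval q g) = aeval (fun j => (x0 j : A) * t ^ w j) g := by
      intro A _ t g
      rw [← AlgHom.comp_apply]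
      congr 1
      apply MvPolynomial.algHom_ext
      intro j
      rw [AlgHom.comp_apply, aeval_X, aeval_X, hq]
      simp
    have hpg : ∃ g ∈ G, aeval q g ≠ 0 := by
      by_contra hcon
      push Not at hcon
      have h1 := curve_in (hnz x0 hprim0) hk0 hw1 (fun z g hg => by
        have h2 := hev ℂ (Complex.exp z) g
        rw [hcon g hg, map_zero] at h2
        rw [h2]
        congr 2
        funext j
        push_cast
        rw [mul_comm z, Complex.exp_nat_mul]
        ring) hyp0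
      exact hw2 fun j hj j' hj' => h1 j j' ((hS j).1 hj) ((hS j').1 hj')
    obtain ⟨g, hg, hgne⟩ := hpg
    obtain ⟨k, hke, hgk⟩ := hG g hg
    have hdeg : (aeval q g).natDegree ≤ e * C := by
      refine natDegree_aeval_le (hgk.totalDegree_le.trans hke) q fun j => ?_
      rw [hq]
      refine (Polynomial.natDegree_C_mul_X_pow_le _ _).trans (hw3 j)
    have hroot : ∀ x ∈ T, Real.exp (β x) ∈
        ((aeval q g).map (algebraMap ℤ ℝ)).roots.toFinset := by
      intro x hx
      have hmap : (aeval q g).map (algebraMap ℤ ℝ) ≠ 0 := by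
        rw [Ne, Polynomial.map_eq_zero_iff (by
          rw [algebraMap_int_eq]
          exact Int.cast_injective)]
        exact hgne
      rw [Multiset.mem_toFinset, Polynomial.mem_roots hmap, Polynomial.IsRoot.def,
        Polynomial.eval_map_algebraMap, hev]
      have h1 := (hT x hx).2.1 g hg
      have h2 : aeval (fun j => (x j : ℝ)) g = 0 := by
        have h3 : aeval (fun j => (x j : ℝ)) g = ((aeval x g : ℤ) : ℝ) := by
          have h4 := MvPolynomial.map_aeval x (algebraMap ℤ ℝ) g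
          rw [algebraMap_int_eq, eq_intCast] at h4
          rw [h4, aeval_def, coe_eval₂Hom]
          congr 1
        rw [h3, h1, Int.cast_zero]
      have h3 : (fun j => (x j : ℝ)) = fun j => Real.exp (α x) * (x0 j * Real.exp (β x) ^ w j) :=
        funext (hαβ x hx)
      rw [h3, aeval_scale hgk] at h2
      exact (mul_eq_zero.1 h2).resolve_left (pow_ne_zero _ (Real.exp_ne_zero _))
    have hinj : Set.InjOn (fun x => Real.exp (β x)) (T : Set (Fin n → ℤ)) := by
      intro x hx x' hx' hxx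
      simp only at hxx
      refine (prim_eq (hT x hx).1 (hT x' hx').1 (c := Real.exp (α x') / Real.exp (α x))
        (by positivity) fun j => ?_).symm
      rw [hαβ x hx j, hαβ x' hx' j, hxx]
      have := Real.exp_ne_zero (α x)
      field_simp
    calc T.card = (T.image fun x => Real.exp (β x)).card := (Finset.card_image_of_injOn hinj).symm
      _ ≤ ((aeval q g).map (algebraMap ℤ ℝ)).roots.toFinset.card := by
          refine Finset.card_le_card fun t ht => ?_
          obtain ⟨x, hx, rfl⟩ := Finset.mem_image.1 ht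
          exact hroot x hx
      _ ≤ Multiset.card ((aeval q g).map (algebraMap ℤ ℝ)).roots := Multiset.toFinset_card_le _
      _ ≤ ((aeval q g).map (algebraMap ℤ ℝ)).natDegree := Polynomial.card_roots' _
      _ ≤ (aeval q g).natDegree := Polynomial.natDegree_map_le
      _ ≤ e * C + 1 := hdeg.trans (Nat.le_succ _)
  · push Not at hc
    have hsub : T ⊆ {x0} := by
      intro x hx
      rw [Finset.mem_singleton]
      obtain ⟨j0, hj0⟩ : ∃ j, x0 j ≠ 0 := by
        by_contra hcon
        push Not at hcon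
        exact hnz x0 hprim0 (funext hcon)
      have hj0S := (hS j0).2 hj0
      refine prim_eq hprim0 (hT x hx).1 (hpos x hx j0 hj0S) fun j => ?_
      by_cases hj : j ∈ S
      · have h1 := real_const (hlog x hx) hc hj hj0S
        have h2 := Real.log_injOn_pos (hpos x hx j hj) (hpos x hx j0 hj0S) h1
        have h3 : (x0 j : ℝ) ≠ 0 := by exact_mod_cast (hS j).1 hj
        rw [← h2]
        field_simp
      · obtain ⟨h1, h2⟩ := hzero x hx j hj
        rw [h1, h2]
        simp
    have := Finset.card_le_card hsub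
    rw [Finset.card_singleton] at this
    omega

end Pool.Agent.T6.H20.MN
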