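import Mathlib
import Pool.Agent.T6.H20.MN.Class

/-!
# Sums of few high powers of monomials: counting the points of hyperbolic subvarieties
-/

set_option autoImplicit false

namespace Pool.Agent.T6.H20.MN

open Pool.Agent.Y902.GN MvPolynomial

/-- constants are absorbed -/
theorem big_of {δ η : ℝ} (hδ : 0 < δ) (hη : 0 < η) (B : ℝ) (hB : 1 ≤ B) {R Y d : ℕ}
    (hR : B ^ (δ / η) ≤ (R : ℝ)) (hd : R ≤ d) (hY : (d : ℝ) ≤ (Y : ℝ) ^ δ) :
    B ≤ (Y : ℝ) ^ η := by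
  have h1 : B ^ (δ / η) ≤ (Y : ℝ) ^ δ :=
    hR.trans ((by exact_mod_cast hd : (R : ℝ) ≤ d).trans hY)
  have h2 := Real.rpow_le_rpow (by positivity) h1 (by positivity : (0 : ℝ) ≤ η / δ)
  rw [← Real.rpow_mul (by positivity), ← Real.rpow_mul (by positivity)] at h2
  have h3 : δ / η * (η / δ) = 1 := by field_simp
  have h4 : δ * (η / δ) = η := by field_simp
  rwa [h3, h4, Real.rpow_one] at h2

theorem mon_bd {m n l Y : ℕ} {M : Fin m → Fin n → ℕ} (hM : ∀ i, ∑ j, M i j = l)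
    {x : Fin n → ℤ} (hx : ∀ j, |x j| ≤ (Y : ℤ)) (i : Fin m) : |mon M x i| ≤ (Y : ℤ) ^ l := by
  unfold mon
  rw [Finset.abs_prod]
  calc ∏ j, |x j ^ M i j| ≤ ∏ j, (Y : ℤ) ^ M i j := by
        refine Finset.prod_le_prod (fun j _ => abs_nonneg _) fun j _ => ?_
        rw [abs_pow]
        exact pow_le_pow_left₀ (abs_nonneg _) (hx j) _
    _ = (Y : ℤ) ^ l := by rw [Finset.prod_pow_eq_pow_sum, hM i]

/-- the points which are counted -/
def Pts (n m E d Y : ℕ) (u : Fin m → ℤ) (M : Fin m → Fin n → ℕ)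
    (G : Set (MvPolynomial (Fin n) ℤ)) : Set (Fin n → ℤ) :=
  {x | Finset.univ.gcd x = 1 ∧ (∀ j, |x j| ≤ (Y : ℤ)) ∧ (∀ g ∈ G, aeval x g = 0) ∧
    ∃ s : Fin m → ℤ, (∀ i, s i ≠ 0 ∧ |s i| ≤ (Y : ℤ) ^ E) ∧
      ∑ i, u i * s i * mon M x i ^ d = 0 ∧ NoSurf (fun i => u i * s i) M d ∧
      Hyp (fun i => u i * s i) M d G}

theorem count (n m l E : ℕ) (ε : ℝ) (hε : 0 < ε) : ∃ (R : ℕ) (δ : ℝ), 0 < δ ∧
    ∀ (Y d : ℕ) (u : Fin m → ℤ), 1 ≤ Y → R ≤ d → (d : ℝ) ≤ (Y : ℝ) ^ δ →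
      (∀ i, ((|u i| : ℤ) : ℝ) ≤ Real.exp ((Y : ℝ) ^ δ)) →
      ∀ M : Fin m → Fin n → ℕ, (∀ i, ∑ j, M i j = l) →
      ∀ (e : ℕ) (G : Set (MvPolynomial (Fin n) ℤ)), (∀ g ∈ G, ∃ k ≤ e, g.IsHomogeneous k) →
        (Pts n m E d Y u M G).Finite ∧
          ((Pts n m E d Y u M G).ncard : ℝ) ≤ ((e : ℝ) + 1) * (Y : ℝ) ^ ε := by
  classical
  obtain ⟨R, δ, hδ, H⟩ := keys m (E + l) (ε / 2) (by positivity)
  obtain ⟨C, hC⟩ := exists_width n m l
  obtain ⟨B, hB⟩ : ∃ B : ℝ, B = ((C : ℝ) + 1) * 3 ^ n := ⟨_, rfl⟩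
  have hB1 : 1 ≤ B := by
    rw [hB]
    have h1 : (1 : ℝ) ≤ (C : ℝ) + 1 := by
      have : (0 : ℝ) ≤ (C : ℝ) := Nat.cast_nonneg _
      linarith
    have h2 : (1 : ℝ) ≤ 3 ^ n := one_le_pow₀ (by norm_num)
    nlinarith
  refine ⟨max (R + 1) ⌈B ^ (δ / (ε / 2))⌉₊, δ, hδ, fun Y d u hY hd hdY hu M hM e G hG => ?_⟩
  have hBY : B ≤ (Y : ℝ) ^ (ε / 2) :=
    big_of hδ (by positivity) B hB1 (Nat.le_ceil _) ((le_max_right _ _).trans hd) hdY
  have hd0 : d ≠ 0 := by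
    have := (le_max_left _ _).trans hd
    omega
  obtain ⟨K, hK1, hK2⟩ := H Y d u hY (by
    have := (le_max_left _ _).trans hd
    omega) hdY hu
  refine fin_of_bound _ _ fun T hT => ?_
  have hY0 : (1 : ℤ) ≤ (Y : ℤ) := by exact_mod_cast hY
  have hkey : ∀ x ∈ T, ∃ κ ∈ K, ∃ s, IsKey u d s (mon M x) κ ∧
      NoSurf (fun i => u i * s i) M d ∧ Hyp (fun i => u i * s i) M d G := by
    intro x hx
    obtain ⟨h1, h2, h3, s, h4, h5, h6, h7⟩ := hT x hx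
    obtain ⟨κ, hκ, hκ'⟩ := hK2 s (mon M x) (fun i => (mon_bd hM h2 i).trans
      (pow_le_pow_right₀ hY0 (by omega))) (fun i => ⟨(h4 i).1, (h4 i).2.trans
      (pow_le_pow_right₀ hY0 (by omega))⟩) h5
    exact ⟨κ, hκ, s, hκ', h6, h7⟩
  choose! κ hκ1 hκ2 using hkey
  obtain ⟨f, hf⟩ : ∃ f : (Fin n → ℤ) → Key m × (Fin n → ℤ), ∀ x, f x =
      (κ x, fun j => (x j).sign) := ⟨_, fun _ => rfl⟩
  have h1 : T.card ≤ (e * C + 1) * (T.image f).card := by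
    refine Finset.card_le_mul_card_image _ _ fun a _ => ?_
    refine class_card (u := u) hd0 hG a.1 (fun S hS => hC M a.1.1 S hM hS) _ (fun x hx => ?_)
      fun x hx x' hx' j => ?_
    · obtain ⟨hx1, hx2⟩ := Finset.mem_filter.1 hx
      rw [hf] at hx2
      have hx3 : κ x = a.1 := by rw [← hx2]
      rw [← hx3]
      exact ⟨(hT x hx1).1, (hT x hx1).2.2.1, hκ2 x hx1⟩
    · have hx2 := (Finset.mem_filter.1 hx).2
      have hx2' := (Finset.mem_filter.1 hx').2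
      rw [hf] at hx2 hx2'
      have h3 := congrArg Prod.snd (hx2.trans hx2'.symm)
      exact congrFun h3 j
  have h2 : (T.image f).card ≤ K.card * 3 ^ n := by
    calc (T.image f).card ≤ (K ×ˢ Fintype.piFinset fun _ : Fin n => ({-1, 0, 1} : Finset ℤ)).card := by
          refine Finset.card_le_card fun a ha => ?_
          obtain ⟨x, hx, rfl⟩ := Finset.mem_image.1 ha
          rw [hf, Finset.mem_product, Fintype.mem_piFinset]
          refine ⟨hκ1 x hx, fun j => ?_⟩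
          rcases Int.sign_trichotomy (x j) with h | h | h <;> simp [h]
      _ = K.card * 3 ^ n := by
          rw [Finset.card_product, Fintype.card_piFinset]
          simp
  have h3 : (T.card : ℝ) ≤ ((e : ℝ) * C + 1) * ((K.card : ℝ) * 3 ^ n) := by
    have := h1.trans (Nat.mul_le_mul_left _ h2)
    exact_mod_cast this
  have hC0 : (0 : ℝ) ≤ (C : ℝ) := Nat.cast_nonneg _
  have he0 : (0 : ℝ) ≤ (e : ℝ) := Nat.cast_nonneg _
  have hK0 : (0 : ℝ) ≤ (K.card : ℝ) := Nat.cast_nonneg _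
  have h30 : (0 : ℝ) < (3 : ℝ) ^ n := by positivity
  have hYe : (Y : ℝ) ^ (ε / 2) * (Y : ℝ) ^ (ε / 2) = (Y : ℝ) ^ ε := by
    rw [← Real.rpow_add (by exact_mod_cast hY)]
    congr 1
    ring
  calc (T.card : ℝ) ≤ ((e : ℝ) * C + 1) * ((K.card : ℝ) * 3 ^ n) := h3
    _ ≤ (((e : ℝ) + 1) * (C + 1)) * ((K.card : ℝ) * 3 ^ n) := by
        refine mul_le_mul_of_nonneg_right ?_ (by positivity)
        nlinarith
    _ = ((e : ℝ) + 1) * (B * K.card) := by rw [hB]; ring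
    _ ≤ ((e : ℝ) + 1) * ((Y : ℝ) ^ (ε / 2) * (Y : ℝ) ^ (ε / 2)) := by
        refine mul_le_mul_of_nonneg_left ?_ (by positivity)
        exact mul_le_mul hBY hK1 hK0 (by positivity)
    _ = ((e : ℝ) + 1) * (Y : ℝ) ^ ε := by rw [hYe]

end Pool.Agent.T6.H20.MN
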