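import Mathlib
import Pool.Agent.T6.H20.MN.Count

/-!
# Sums of few high powers of arbitrary forms: the points lie on few subvarieties
-/

set_option autoImplicit false

namespace Pool.Agent.T6.H20.MN

open Pool.Agent.Y902.GN MvPolynomial

theorem form_bd {n l E Y : ℕ} (hY : (l + 1) ^ n ≤ Y) {F : MvPolynomial (Fin n) ℤ}
    (hF : F.IsHomogeneous l) (hc : ∀ t, |coeff t F| ≤ (Y : ℤ) ^ E) {x : Fin n → ℤ}
    (hx : ∀ j, |x j| ≤ (Y : ℤ)) : |aeval x F| ≤ (Y : ℤ) ^ (E + l + 1) := by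
  classical
  have hdeg : ∀ t ∈ F.support, ∑ j, t j = l := by
    intro t ht
    have := hF (mem_support_iff.1 ht)
    rw [Finsupp.weight_apply, Finsupp.sum_fintype _ _ (by simp)] at this
    simpa using this
  have hcard : F.support.card ≤ (l + 1) ^ n := by
    calc F.support.card ≤ (Fintype.piFinset fun _ : Fin n => Finset.range (l + 1)).card := by
          refine Finset.card_le_card_of_injOn (fun t => (fun j => t j)) (fun t ht => ?_) ?_
          · rw [Finset.mem_coe, Fintype.mem_piFinset]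
            intro j
            rw [Finset.mem_range]
            have h1 : t j ≤ ∑ j, t j := Finset.single_le_sum (f := fun j => t j)
              (fun j _ => Nat.zero_le _) (Finset.mem_univ j)
            have h2 := hdeg t ht
            have h3 : t j < l + 1 := by omega
            exact h3
          · intro t _ t' _ h
            ext j
            exact congrFun h j
      _ = (l + 1) ^ n := by
          rw [Fintype.card_piFinset]
          simp
  have hYn : (0 : ℤ) ≤ (Y : ℤ) := Int.natCast_nonneg _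
  rw [aeval_def, eval₂_eq']
  refine (Finset.abs_sum_le_sum_abs _ _).trans ?_
  have hterm : ∀ t ∈ F.support, |(algebraMap ℤ ℤ) (coeff t F) * ∏ j, x j ^ t j| ≤
      (Y : ℤ) ^ (E + l) := by
    intro t ht
    rw [abs_mul, Finset.abs_prod, pow_add]
    refine mul_le_mul (hc t) ?_ (Finset.prod_nonneg fun j _ => abs_nonneg _) (by positivity)
    calc ∏ j, |x j ^ t j| ≤ ∏ j, (Y : ℤ) ^ t j := by
          refine Finset.prod_le_prod (fun j _ => abs_nonneg _) fun j _ => ?_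
          rw [abs_pow]
          exact pow_le_pow_left₀ (abs_nonneg _) (hx j) _
      _ = (Y : ℤ) ^ l := by rw [Finset.prod_pow_eq_pow_sum, hdeg t ht]
  refine (Finset.sum_le_card_nsmul _ _ _ hterm).trans ?_
  rw [nsmul_eq_mul, pow_succ, mul_comm]
  refine mul_le_mul_of_nonneg_left ?_ (by positivity)
  exact_mod_cast hcard.trans hY

/-- the closed subset given by equations `F i = 0` and `F i = c (i, i') F i'` -/
def locus {m n : ℕ} (F : Fin m → MvPolynomial (Fin n) ℤ) (Z : Finset (Fin m))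
    (r : Finset (Fin m × Fin m)) (c : Fin m × Fin m → ℚ) : Set (Fin n → ℚ) :=
  {z | (∀ i ∈ Z, aeval z (F i) = 0) ∧ ∀ p ∈ r, aeval z (F p.1) = c p * aeval z (F p.2)}

theorem aeval_cast {n : ℕ} (A : Type) [CommRing A] (x : Fin n → ℤ) (F : MvPolynomial (Fin n) ℤ) :
    aeval (fun j => (x j : A)) F = ((aeval x F : ℤ) : A) := by
  have h4 := MvPolynomial.map_aeval x (algebraMap ℤ A) F
  rw [algebraMap_int_eq, eq_intCast] at h4
  rw [h4, aeval_def, coe_eval₂Hom]
  congr 1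

theorem cover (n m l E : ℕ) (ε : ℝ) (hε : 0 < ε) : ∃ (R : ℕ) (δ : ℝ), 0 < δ ∧
    ∀ (Y d : ℕ) (u : Fin m → ℤ), 1 ≤ Y → R ≤ d → (d : ℝ) ≤ (Y : ℝ) ^ δ →
      (∀ i, ((|u i| : ℤ) : ℝ) ≤ Real.exp ((Y : ℝ) ^ δ)) →
      ∀ F : Fin m → MvPolynomial (Fin n) ℤ, (∀ i, (F i).IsHomogeneous l) →
        (∀ i t, |coeff t (F i)| ≤ (Y : ℤ) ^ E) →
        ∃ L : Finset (Set (Fin n → ℚ)), (L.card : ℝ) ≤ (Y : ℝ) ^ ε ∧
          (∀ W ∈ L, ∃ Z r c, W = locus F Z r c) ∧
          ∀ (x : Fin n → ℤ) (s : Fin m → ℤ), (∀ j, |x j| ≤ (Y : ℤ)) →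
            (∀ i, s i ≠ 0 ∧ |s i| ≤ (Y : ℤ) ^ E) →
            ∑ i, ((u i * s i : ℤ) : ℤ) * (aeval x (F i)) ^ d = 0 →
            ∃ W ∈ L, (fun j => (x j : ℚ)) ∈ W ∧
              ∀ z ∈ W, ∑ i, ((u i * s i : ℤ) : ℚ) * (aeval z (F i)) ^ d = 0 := by
  classical
  obtain ⟨R, δ, hδ, H⟩ := keys m (E + l + 1) ε hε
  refine ⟨max (R + 1) ⌈(((l + 1) ^ n : ℕ) : ℝ) ^ (δ / 1)⌉₊, δ, hδ, fun Y d u hY hd hdY hu F hF hc => ?_⟩
  have hYl : (l + 1) ^ n ≤ Y := by
    have := big_of hδ one_pos (((l + 1) ^ n : ℕ) : ℝ) (by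
      exact_mod_cast Nat.one_le_pow _ _ (Nat.succ_pos l)) (Nat.le_ceil _)
      ((le_max_right _ _).trans hd) hdY
    rw [Real.rpow_one] at this
    exact_mod_cast this
  have hd0 : d ≠ 0 := by
    have := (le_max_left _ _).trans hd
    omega
  obtain ⟨K, hK1, hK2⟩ := H Y d u hY (by
    have := (le_max_left _ _).trans hd
    omega) hdY hu
  have hY0 : (1 : ℤ) ≤ (Y : ℤ) := by exact_mod_cast hY
  obtain ⟨W, hW⟩ : ∃ W : Key m → Set (Fin n → ℚ), ∀ κ, W κ = locus F
      (Finset.univ.filter fun i => i ∉ κ.1.biUnion id ∧ u i ≠ 0)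
      (Finset.univ.filter fun p => ∃ B ∈ κ.1, p.1 ∈ B ∧ p.2 ∈ B) (fun p => κ.2 p.1 p.2) :=
    ⟨_, fun _ => rfl⟩
  have hW' : ∀ κ z, z ∈ W κ ↔ (∀ i, i ∉ κ.1.biUnion id → u i ≠ 0 → aeval z (F i) = 0) ∧
      ∀ B ∈ κ.1, ∀ i ∈ B, ∀ i' ∈ B, aeval z (F i) = κ.2 i i' * aeval z (F i') := by
    intro κ z
    rw [hW]
    unfold locus
    simp only [Set.mem_ofPred_eq, Finset.mem_filter, Finset.mem_univ, true_and, and_imp,
      forall_exists_index, Prod.forall]
    refine and_congr Iff.rfl ⟨fun h B hB i hi i' hi' => h i i' B hB hi hi',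
      fun h i i' B hB hi hi' => h B hB i hi i' hi'⟩
  refine ⟨K.image W, ?_, fun V hV => ?_, fun x s hx hs h0 => ?_⟩
  · refine le_trans ?_ hK1
    exact_mod_cast Finset.card_image_le
  · obtain ⟨κ, -, rfl⟩ := Finset.mem_image.1 hV
    exact ⟨_, _, _, hW κ⟩
  · obtain ⟨κ, hκ, hκ'⟩ := hK2 s (fun i => aeval x (F i)) (fun i => form_bd hYl (hF i) (hc i) hx)
      (fun i => ⟨(hs i).1, (hs i).2.trans (pow_le_pow_right₀ hY0 (by omega))⟩) h0
    refine ⟨W κ, Finset.mem_image_of_mem _ hκ, (hW' κ _).2 ⟨fun i hi hui => ?_,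
      fun B hB i hi i' hi' => ?_⟩, fun z hz => ?_⟩
    · rw [aeval_cast ℚ]
      have h1 : u i * s i * (aeval x (F i)) ^ d = 0 := by
        by_contra hcon
        exact hi ((hκ'.un i).2 hcon)
      have h2 := (mul_eq_zero.1 h1).resolve_left (mul_ne_zero hui (hs i).1)
      rw [(pow_eq_zero_iff hd0).1 h2, Int.cast_zero]
    · rw [aeval_cast ℚ, aeval_cast ℚ, hκ'.rat B hB i hi i' hi']
      have h1 : ((aeval x (F i') : ℤ) : ℚ) ≠ 0 := by
        exact_mod_cast hκ'.ne hd0 hB hi'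
      field_simp
    · obtain ⟨hz1, hz2⟩ := (hW' κ z).1 hz
      rw [← hκ'.sum (A := ℚ) (fun i => if i ∈ κ.1.biUnion id then
        (aeval z (F i) / ((aeval x (F i) : ℤ) : ℚ)) ^ d else 0) (fun B hB i hi i' hi' => ?_)]
      · refine Finset.sum_congr rfl fun i _ => ?_
        by_cases hi : i ∈ κ.1.biUnion id
        · rw [if_pos hi]
          obtain ⟨B, hB, hiB⟩ := Finset.mem_biUnion.1 hi
          have h1 : ((aeval x (F i) : ℤ) : ℚ) ≠ 0 := by
            exact_mod_cast hκ'.ne hd0 hB hiB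
          push_cast
          rw [div_pow]
          field_simp
        · rw [if_neg hi, mul_zero]
          by_cases hui : u i = 0
          · rw [hui, zero_mul, Int.cast_zero, zero_mul]
          · rw [hz1 i hi hui, zero_pow hd0, mul_zero]
      · rw [if_pos (Finset.mem_biUnion.2 ⟨B, hB, hi⟩), if_pos (Finset.mem_biUnion.2 ⟨B, hB, hi'⟩)]
        have h1 : ((aeval x (F i) : ℤ) : ℚ) ≠ 0 := by
          exact_mod_cast hκ'.ne hd0 hB hi
        have h2 : ((aeval x (F i') : ℤ) : ℚ) ≠ 0 := by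
          exact_mod_cast hκ'.ne hd0 hB hi'
        congr 1
        rw [hz2 B hB i hi i' hi', hκ'.rat B hB i hi i' hi']
        field_simp

end Pool.Agent.T6.H20.MN
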